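import Pool.Agent.Y687.N.Defs
import Pool.Agent.Y288.Z7.Cnt
import Pool.Agent.Y155.Z7.XC
import Pool.Agent.Z700.EV

/-!
# The square of the number of representations by three squares (`S_CARD`)
-/

set_option autoImplicit false

namespace Pool.Agent.Y614.NEG

open Finset Pool.Agent.Z700
open scoped Matrix

lemma t_PC : S_PC := pc_of Pool.Agent.Y288.Z7.t_CNT' Pool.Agent.Y155.Z7.t_XC Pool.Agent.Z700.t_EV

lemma dot3 (v w : V3) : v ⬝ᵥ w = v 0 * w 0 + v 1 * w 1 + v 2 * w 2 := by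
  simp [dotProduct, Fin.sum_univ_three]

lemma mem_vec (n : ℤ) (v : V3) : v ∈ vec n ↔ v 0 * v 0 + v 1 * v 1 + v 2 * v 2 = n := by
  unfold vec
  rw [Finset.mem_filter, dot3]
  constructor
  · exact fun h => h.2
  · intro h
    refine ⟨?_, h⟩
    rw [Fintype.mem_piFinset]
    have key : ∀ t s : ℤ, 0 ≤ s → t * t + s = n → t ∈ Icc (-n) n := by
      intro t s hs ht
      rw [Finset.mem_Icc]
      constructor <;> nlinarith [mul_self_nonneg t, mul_self_nonneg (t - 1), mul_self_nonneg (t + 1)]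
    intro i
    fin_cases i
    · exact key (v 0) (v 1 * v 1 + v 2 * v 2) (add_nonneg (mul_self_nonneg _) (mul_self_nonneg _)) (by linarith)
    · exact key (v 1) (v 0 * v 0 + v 2 * v 2) (add_nonneg (mul_self_nonneg _) (mul_self_nonneg _)) (by linarith)
    · exact key (v 2) (v 0 * v 0 + v 1 * v 1) (add_nonneg (mul_self_nonneg _) (mul_self_nonneg _)) (by linarith)

/-- the vectors of norm `3` modulo `8` have odd coordinates -/
lemma odd_coords {a b c : ℤ} {n : ℤ} (h : a * a + b * b + c * c = n) (h8 : n % 8 = 3) :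
    a % 2 = 1 ∧ b % 2 = 1 ∧ c % 2 = 1 := by
  have key : ∀ t : ℤ, (t % 2 = 1 ∧ (t * t) % 8 = 1) ∨ (t % 2 = 0 ∧ ((t * t) % 8 = 0 ∨ (t * t) % 8 = 4)) := by
    intro t
    have h1 : t % 8 = 0 ∨ t % 8 = 1 ∨ t % 8 = 2 ∨ t % 8 = 3 ∨ t % 8 = 4 ∨ t % 8 = 5 ∨ t % 8 = 6 ∨
      t % 8 = 7 := by omega
    rcases h1 with h | h | h | h | h | h | h | h <;> simp [Int.mul_emod, h] <;> omega
  have ka := key a
  have kb := key b
  have kc := key c
  omega

lemma neg_mem {n : ℤ} {v : V3} (h : v ∈ vec n) : -v ∈ vec n := by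
  rw [mem_vec] at h ⊢
  simpa using h

lemma cs {n : ℤ} {v w : V3} (hv : v ∈ vec n) (hw : w ∈ vec n) :
    v ⬝ᵥ w ∈ Icc (-n) n := by
  rw [mem_vec] at hv hw
  rw [dot3, Finset.mem_Icc]
  constructor
  · nlinarith [mul_self_nonneg (v 0 + w 0), mul_self_nonneg (v 1 + w 1), mul_self_nonneg (v 2 + w 2)]
  · nlinarith [mul_self_nonneg (v 0 - w 0), mul_self_nonneg (v 1 - w 1), mul_self_nonneg (v 2 - w 2)]

lemma cp_top (n : ℤ) : cp n n n = (vec n).card := by
  unfold cp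
  symm
  refine Finset.card_bij (fun v _ => (v, v)) ?_ ?_ ?_
  · intro v hv
    rw [Finset.mem_filter, Finset.mem_product]
    refine ⟨⟨hv, hv⟩, ?_⟩
    rw [mem_vec] at hv
    simp only
    rw [dot3]
    exact hv
  · intro v _ w _ h
    exact (Prod.ext_iff.1 h).1
  · rintro ⟨v, w⟩ h
    rw [Finset.mem_filter, Finset.mem_product] at h
    obtain ⟨⟨hv, hw⟩, h⟩ := h
    refine ⟨v, hv, ?_⟩
    simp only at hv hw h
    have hv' := (mem_vec n v).1 hv
    have hw' := (mem_vec n w).1 hw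
    rw [dot3] at h
    have e0 : v 0 - w 0 = 0 := by
      have : (v 0 - w 0) * (v 0 - w 0) = 0 := by
        nlinarith [mul_self_nonneg (v 0 - w 0), mul_self_nonneg (v 1 - w 1), mul_self_nonneg (v 2 - w 2)]
      exact mul_self_eq_zero.1 this
    have e1 : v 1 - w 1 = 0 := by
      have : (v 1 - w 1) * (v 1 - w 1) = 0 := by
        nlinarith [mul_self_nonneg (v 0 - w 0), mul_self_nonneg (v 1 - w 1), mul_self_nonneg (v 2 - w 2)]
      exact mul_self_eq_zero.1 this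
    have e2 : v 2 - w 2 = 0 := by
      have : (v 2 - w 2) * (v 2 - w 2) = 0 := by
        nlinarith [mul_self_nonneg (v 0 - w 0), mul_self_nonneg (v 1 - w 1), mul_self_nonneg (v 2 - w 2)]
      exact mul_self_eq_zero.1 this
    refine Prod.ext rfl ?_
    funext i
    fin_cases i
    · exact sub_eq_zero.1 e0
    · exact sub_eq_zero.1 e1
    · exact sub_eq_zero.1 e2

lemma cp_neg (n b : ℤ) : cp n (-b) n = cp n b n := by
  unfold cp
  refine Finset.card_bij (fun q _ => (q.1, -q.2)) ?_ ?_ ?_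
  · rintro ⟨v, w⟩ h
    rw [Finset.mem_filter, Finset.mem_product] at h ⊢
    obtain ⟨⟨hv, hw⟩, h⟩ := h
    refine ⟨⟨hv, neg_mem hw⟩, ?_⟩
    simp only [dotProduct_neg] at h ⊢
    omega
  · rintro ⟨v, w⟩ _ ⟨v', w'⟩ _ h
    simp only [Prod.mk.injEq, neg_inj] at h
    exact Prod.ext h.1 h.2
  · rintro ⟨v, w⟩ h
    rw [Finset.mem_filter, Finset.mem_product] at h
    obtain ⟨⟨hv, hw⟩, h⟩ := h
    refine ⟨(v, -w), ?_, by simp⟩
    rw [Finset.mem_filter, Finset.mem_product]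
    refine ⟨⟨hv, neg_mem hw⟩, ?_⟩
    simp only [dotProduct_neg] at h ⊢
    omega

lemma cp_even {n b : ℤ} (h8 : n % 8 = 3) (hb : ¬ Odd b) : cp n b n = 0 := by
  unfold cp
  rw [Finset.card_eq_zero, Finset.filter_eq_empty_iff]
  rintro ⟨v, w⟩ h e
  rw [Finset.mem_product] at h
  obtain ⟨hv, hw⟩ := h
  simp only at hv hw e
  rw [dot3] at e
  obtain ⟨a0, a1, a2⟩ := odd_coords ((mem_vec n v).1 hv) h8
  obtain ⟨b0, b1, b2⟩ := odd_coords ((mem_vec n w).1 hw) h8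
  apply hb
  rw [← e]
  have o : ∀ t : ℤ, t % 2 = 1 → Odd t := fun t ht => Int.odd_iff.2 ht
  exact (((o _ a0).mul (o _ b0)).add_odd ((o _ a1).mul (o _ b1))).add_odd ((o _ a2).mul (o _ b2))

theorem t_CARD : Pool.Agent.Y687.N.S_CARD := by
  intro n hs h8
  have h8' : (n : ℤ) % 8 = 3 := by omega
  have hn : (0 : ℤ) < n := by omega
  have step1 : ((vec n).card : ℤ) ^ 2 = ∑ b ∈ Icc (-(n : ℤ)) n, (cp n b n : ℤ) := by
    have h := Finset.card_eq_sum_card_fiberwise (f := fun q : V3 × V3 => q.1 ⬝ᵥ q.2)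
      (s := vec (n : ℤ) ×ˢ vec (n : ℤ)) (t := Icc (-(n : ℤ)) n) (by
        rintro ⟨v, w⟩ h
        have h' := Finset.mem_product.1 (Finset.mem_coe.1 h)
        exact Finset.mem_coe.2 (cs h'.1 h'.2))
    rw [Finset.card_product] at h
    rw [sq]
    have h' : (((vec (n : ℤ)).card * (vec (n : ℤ)).card : ℕ) : ℤ) =
      ((∑ b ∈ Icc (-(n : ℤ)) n, (#{q ∈ vec (n : ℤ) ×ˢ vec (n : ℤ) | q.1 ⬝ᵥ q.2 = b} : ℕ) : ℕ) : ℤ) := by
      rw [h]
    push_cast at h'
    rw [h']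
    rfl
  have step2 : Icc (-(n : ℤ)) n = insert (-(n : ℤ)) (insert (n : ℤ) (Ioo (-(n : ℤ)) n)) := by
    ext b
    simp only [Finset.mem_Icc, Finset.mem_insert, Finset.mem_Ioo]
    omega
  rw [step1, step2, Finset.sum_insert (by simp; omega), Finset.sum_insert (by simp), cp_neg, cp_top]
  have step3 : ∑ b ∈ Ioo (-(n : ℤ)) n, (cp n b n : ℤ) =
      ∑ b ∈ (Ioo (-(n : ℤ)) n).filter (fun b : ℤ => Odd b), (cp n b n : ℤ) := by
    rw [Finset.sum_filter]
    refine Finset.sum_congr rfl fun b _ => ?_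
    split_ifs with h
    · rfl
    · rw [cp_even h8' h]
      rfl
  rw [step3, Finset.mul_sum, two_mul, add_assoc]
  congr 2
  refine Finset.sum_congr rfl fun b hb => ?_
  rw [Finset.mem_filter, Finset.mem_Ioo] at hb
  obtain ⟨⟨hb1, hb2⟩, hb⟩ := hb
  have hpos : 0 < (n : ℤ) ^ 2 - b ^ 2 := by nlinarith
  have hc : ((((n : ℤ) ^ 2 - b ^ 2).toNat : ℕ) : ℤ) = (n : ℤ) * (n : ℤ) - b ^ 2 := by
    rw [Int.toNat_of_nonneg hpos.le]
    ring
  have := t_PC n n b ((n : ℤ) ^ 2 - b ^ 2).toNat hs h8 h8 hb (by omega) hc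
  rw [this, Pool.Agent.Y687.N.loc1]
  split_ifs
  · rfl
  · rfl

end Pool.Agent.Y614.NEG
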